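import Pool.Agent.Q211.HF.Main

/-!
# MP_b87f19_lc: subsets of finite positive Hausdorff measure for all gauges

`Q211.HF.IsGauge f`, `Q211.HF.Hd f δ A`, `Q211.HF.H f A` are the literal notions of the problem
(gauge function, `H^f_δ(A)`, `H^f(A)`).

We prove in ZFC that the statement `(*)` of the problem is false, and more precisely that for a
gauge function `f` the statement `(*)` restricted to `f` holds if and only if `f t / t` does not
tend to infinity as `t → 0+`.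
-/

namespace Pool.Agent.Results.MP_b87f19_lc.FiniteMeasureSubsets

open Set Filter MeasureTheory Topology
open scoped ENNReal

/-- `(*)` is refutable in ZFC (second part), and the exact condition on the gauge for `(*)`
(first part). The third part: the counterexamples are subsets of `[0,1)` which are null for
every finite Borel measure vanishing at points. -/
theorem result :
    (∀ f : ℝ → ℝ, Q211.HF.IsGauge f →
      ((∀ A : Set ℝ, 0 < Q211.HF.H f A →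
          ∃ A₀ ⊆ A, 0 < Q211.HF.H f A₀ ∧ Q211.HF.H f A₀ < ⊤) ↔
        ¬ Tendsto (fun t => f t / t) (𝓝[>] 0) atTop)) ∧
    (∃ f : ℝ → ℝ, Q211.HF.IsGauge f ∧ ∃ A : Set ℝ, 0 < Q211.HF.H f A ∧
      ∀ A₀ ⊆ A, Q211.HF.H f A₀ = 0 ∨ Q211.HF.H f A₀ = ⊤) ∧
    (∀ f : ℝ → ℝ, Q211.HF.IsGauge f → Tendsto (fun t => f t / t) (𝓝[>] 0) atTop →
      ∃ A : Set ℝ, A ⊆ Ico 0 1 ∧ Q211.HF.H f A = ⊤ ∧
        (∀ A₀ ⊆ A, Q211.HF.H f A₀ = 0 ∨ Q211.HF.H f A₀ = ⊤) ∧
        ∀ ν : Measure ℝ, ν Set.univ < ⊤ → (∀ x, ν {x} = 0) → ν A = 0) := by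
  have bad : ∀ f : ℝ → ℝ, Q211.HF.IsGauge f → Tendsto (fun t => f t / t) (𝓝[>] 0) atTop →
      ∃ A : Set ℝ, A ⊆ Ico 0 1 ∧ Q211.HF.H f A = ⊤ ∧
        (∀ A₀ ⊆ A, Q211.HF.H f A₀ = 0 ∨ Q211.HF.H f A₀ = ⊤) ∧
        ∀ ν : Measure ℝ, ν Set.univ < ⊤ → (∀ x, ν {x} = 0) → ν A = 0 := by
    intro f hf hft
    obtain ⟨Z, hZ, hν, hpos⟩ := Q211.HF.exists_bad hf hft
    refine ⟨Z, hZ, ?_, fun A₀ hA₀ => Q211.HF.zero_or_top hf hν hA₀, fun ν h1 h2 => ?_⟩
    · rcases Q211.HF.zero_or_top hf hν (Subset.refl Z) with h | h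
      · exact absurd h hpos.ne'
      · exact h
    · have i1 : IsFiniteMeasure ν := ⟨h1⟩
      have i2 : NullSingletonClass ν := ⟨h2⟩
      exact hν ν
  refine ⟨fun f hf => ⟨fun h hft => ?_, fun h A hA => Q211.HF.exists_finite hf h hA⟩, ?_, bad⟩
  · obtain ⟨A, -, hA, hA0, -⟩ := bad f hf hft
    obtain ⟨A₀, hs, h1, h2⟩ := h A (by rw [hA]; exact ENNReal.zero_lt_top)
    rcases hA0 A₀ hs with h3 | h3
    · exact h1.ne' h3
    · exact h2.ne h3
  · obtain ⟨A, -, hA, hA0, -⟩ := bad Real.sqrt Q211.HF.isGauge_sqrt Q211.HF.tendsto_sqrt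
    exact ⟨Real.sqrt, Q211.HF.isGauge_sqrt, A, by rw [hA]; exact ENNReal.zero_lt_top, hA0⟩

end Pool.Agent.Results.MP_b87f19_lc.FiniteMeasureSubsets
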